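import Pool.Agent.W844.GP.Main2

/-!
# MP_18bc13_pr: convergence in mean of greedy lattice paths with heavy negative tails
-/

set_option autoImplicit false

open MeasureTheory ProbabilityTheory Filter Topology
open scoped ENNReal

namespace Pool.Agent.Results.MP_18bc13_pr.LOneConvergence

/-- self-avoiding nearest neighbour paths of length `n` from the origin of `ℤ^d` -/
def SAPath (d n : ℕ) : Type := {p : Fin (n + 1) → (Fin d → ℤ) //
  p 0 = 0 ∧ Function.Injective p ∧ ∀ i : Fin n, ∑ j, |p i.succ j - p i.castSucc j| = 1}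

/-- the greedy lattice path weight: the maximum over the self-avoiding paths of length `n` from
the origin of the sum of the weights of all vertices except the origin -/
noncomputable def greedyWeight (d : ℕ) (x : (Fin d → ℤ) → ℝ) (n : ℕ) : ℝ :=
  ⨆ p : SAPath d n, ∑ i : Fin n, x (p.1 i.succ)

/-- independent identically distributed real weights on the vertices of `ℤ^d` -/
def IIDWeights {Ω : Type} [MeasurableSpace Ω] (d : ℕ) (P : Measure Ω)
    (X : (Fin d → ℤ) → Ω → ℝ) : Prop :=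
  (∀ v, Measurable (X v)) ∧ iIndepFun X P ∧ ∀ v, IdentDistrib (X v) (X 0) P P

/-- assumption (A+) -/
def APlus {Ω : Type} [MeasurableSpace Ω] (d : ℕ) (P : Measure Ω) (X₀ : Ω → ℝ) : Prop :=
  ∃ α : ℝ, 0 < α ∧ ∫⁻ ω, ENNReal.ofReal ((max (X₀ ω) 0) ^ d *
    (max (Real.log (max (X₀ ω) 0)) 0) ^ ((d : ℝ) + α)) ∂P < ⊤

/-- assumption (A-) -/
def AMinus {Ω : Type} [MeasurableSpace Ω] (d : ℕ) (P : Measure Ω) (X₀ : Ω → ℝ) : Prop :=
  ∫⁻ t in Set.Ioi (0 : ℝ), P {ω | X₀ ω < -t} ^ (2 * d) < ⊤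

/-- For `d ≥ 2` the greedy lattice path weight divided by `n` converges in mean to a finite
constant under (A+) and (A-); in dimension one this fails. -/
theorem result :
    (∀ d : ℕ, 2 ≤ d → ∀ (Ω : Type) [MeasurableSpace Ω] (P : Measure Ω) [IsProbabilityMeasure P]
      (X : (Fin d → ℤ) → Ω → ℝ), IIDWeights d P X → APlus d P (X 0) → AMinus d P (X 0) →
      (∀ n : ℕ, Integrable (fun ω => greedyWeight d (fun v => X v ω) n) P) ∧
      ∃ M : ℝ, Tendsto (fun n : ℕ => ∫ ω, |greedyWeight d (fun v => X v ω) n / n - M| ∂P)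
        atTop (𝓝 0)) ∧
    (∃ (Ω : Type) (_ : MeasurableSpace Ω) (P : Measure Ω) (X : (Fin 1 → ℤ) → Ω → ℝ),
      IsProbabilityMeasure P ∧ IIDWeights 1 P X ∧ APlus 1 P (X 0) ∧ AMinus 1 P (X 0) ∧
      ∀ M : ℝ, ¬ Tendsto (fun n : ℕ =>
        ∫⁻ ω, ENNReal.ofReal |greedyWeight 1 (fun v => X v ω) n / n - M| ∂P) atTop (𝓝 0)) := by
  constructor
  · rintro d hd Ω _ P _ X ⟨hX, hind, hid⟩ hp hn
    exact Pool.Agent.W844.GP.l1_general Pool.Agent.W844.GP.e2 Pool.Agent.W844.GP.poseT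
      Pool.Agent.W844.GP.low1T hd Ω P X hX hind hid hp hn
  · obtain ⟨P, h1, h2, h3, h4, h5, h6⟩ := Pool.Agent.W844.GP.d1_neg Pool.Agent.W844.GP.d1T
    refine ⟨(Fin 1 → ℤ) → ℝ, inferInstance, P, fun v w => w v, h1,
      ⟨fun v => measurable_pi_apply v, h2, h3⟩, ⟨1, one_pos, ?_⟩, ?_, h6⟩
    · have h7 : ∫⁻ w : (Fin 1 → ℤ) → ℝ, ENNReal.ofReal ((max (w 0) 0) ^ 1 *
          (max (Real.log (max (w 0) 0)) 0) ^ (((1 : ℕ) : ℝ) + 1)) ∂P =
          ∫⁻ _ : (Fin 1 → ℤ) → ℝ, 0 ∂P := by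
        refine lintegral_congr_ae ?_
        filter_upwards [h4] with w hw
        rw [max_eq_right hw]; simp
      rw [h7]; simp
    · exact h5

end Pool.Agent.Results.MP_18bc13_pr.LOneConvergence
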